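import Mathlib
import Pool.Agent.TH310.Cor.Ind

/-!
Iterated Whitney localisation of the corona problem on the ball: the step from a complex geodesic to
its Whitney cells.
-/

set_option autoImplicit false

open Metric Set Filter Topology WeakDual

namespace Pool.Agent.TH223.Tr

open Pool.Agent.TH310.Cor
open Pool.Agent.H326R3.CB (Bt)
open Pool.Agent.W732.Cor (mv S_mv S_ball S_uni)

variable {m : ℕ}

theorem SCr.mono {p : V m} {r r' : V m → ℝ → ℝ} {f : V m → ℂ} (h : SCr p r f)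
    (hr : ∀ q ε, r' q ε ≤ r q ε) : SCr p r' f :=
  fun q hq hpq ε hε a ha z hz w hw hzq hwq =>
    h q hq hpq ε hε a ha z hz w hw (hzq.trans_le (hr q ε)) (hwq.trans_le (hr q ε))

theorem Fams.mono {p : V m} {r r' : V m → ℝ → ℝ} {k N : ℕ} {F : Fin k → Fin N → V m → ℂ}
    (h : Fams p r F) (hr : ∀ q ε, r' q ε ≤ r q ε) : Fams p r' F where
  hb := h.hb
  sc := fun s => by
    obtain ⟨ψ, φ, hψ, hs⟩ := h.sc s
    exact ⟨ψ, φ, hψ, fun j => SCr.mono (hs j) hr⟩

/-- corona data `f`, a set `U` on which they satisfy the condition `Cnd`, and `K` further functions `L`,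
scaled continuous along geodesics, which are not all small outside of `U` -/
structure Dat (p : V m) (N K : ℕ) (r : V m → ℝ → ℝ) (δ η : ℝ)
    (Cnd : (Fin N → V m → ℂ) → Set (V m) → Prop) : Type where
  f : Fin N → V m → ℂ
  U : Set (V m)
  L : Fin K → V m → ℂ
  hf : ∀ j, HB (f j)
  hlow : ∀ z ∈ ball (0 : V m) 1, δ ≤ ∑ j, ‖f j z‖
  hL : Fams p r (fun l (_ : Fin 1) => L l)
  hout : ∀ z ∈ ball (0 : V m) 1, z ∉ U → η ≤ ∑ l, ‖L l z‖
  hc : Cnd f U

/-- the functions of the data -/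
def Dat.F {p : V m} {N K : ℕ} {r : V m → ℝ → ℝ} {δ η : ℝ}
    {Cnd : (Fin N → V m → ℂ) → Set (V m) → Prop} (x : Dat p N K r δ η Cnd) :
    (Fin N ⊕ Fin K) → V m → ℂ := Sum.elim x.f x.L

theorem Dat.hF {p : V m} {N K : ℕ} {r : V m → ℝ → ℝ} {δ η : ℝ}
    {Cnd : (Fin N → V m → ℂ) → Set (V m) → Prop} (x : Dat p N K r δ η Cnd) (o : Fin N ⊕ Fin K) :
    HB (x.F o) := by
  rcases o with j | l
  · exact x.hf j
  · exact x.hL.hb l 0

/-- data which satisfy the condition, with localising functions, are uniformly solvable -/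
def Goal (p : V m) (N : ℕ) (δ : ℝ) (Cnd : (Fin N → V m → ℂ) → Set (V m) → Prop) : Prop :=
  ∀ (K : ℕ) (r : V m → ℝ → ℝ), (∀ q ε, 0 < ε → 0 < r q ε) → ∀ η : ℝ, 0 < η →
    Solv (fun x : Dat p N K r δ η Cnd => x.F)

theorem Goal.mono {p : V m} {N : ℕ} {δ : ℝ} {Cnd Cnd' : (Fin N → V m → ℂ) → Set (V m) → Prop}
    (h : Goal p N δ Cnd') (hi : ∀ f U, Cnd f U → Cnd' f U) : Goal p N δ Cnd := by
  intro K r hr η hη
  obtain ⟨C, hC⟩ := h K r hr η hη
  exact ⟨C, fun x => hC ⟨x.f, x.U, x.L, x.hf, x.hlow, x.hL, x.hout, hi _ _ x.hc⟩⟩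

/-- the final step: no localising functions -/
theorem Goal.final {p : V m} {N : ℕ} {δ : ℝ} {Cnd : (Fin N → V m → ℂ) → Set (V m) → Prop}
    (h : Goal p N δ Cnd) : ∃ C : ℝ, ∀ f : Fin N → V m → ℂ, (∀ j, HB (f j)) →
      (∀ z ∈ ball (0 : V m) 1, δ ≤ ∑ j, ‖f j z‖) → Cnd f (ball 0 1) →
      ∃ g : Fin N → V m → ℂ, (∀ j, DifferentiableOn ℂ (g j) (ball 0 1)) ∧
        (∀ j, ∀ z ∈ ball (0 : V m) 1, ‖g j z‖ ≤ C) ∧
        ∀ z ∈ ball (0 : V m) 1, ∑ j, f j z * g j z = 1 := by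
  obtain ⟨C, hC⟩ := h 0 (fun _ _ => 1) (fun _ _ _ => one_pos) 1 one_pos
  refine ⟨C, fun f hf hlow hc => ?_⟩
  obtain ⟨g, h1, h2, h3⟩ := hC ⟨f, ball 0 1, fun l => l.elim0, hf, hlow,
    ⟨fun s => s.elim0, fun s => s.elim0⟩, fun z hz hz' => absurd hz hz', hc⟩
  refine ⟨fun j => g (Sum.inl j), fun j => h1 _, fun j => h2 _, fun z hz => ?_⟩
  have h4 := h3 z hz
  rw [Fintype.sum_sum_type] at h4
  simpa [Dat.F] using h4

/-- the condition `Cq q` on all Whitney cells at `q` along some complex geodesic -/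
def NodeCnd {N : ℕ} (p : V m) (ρ : V m → ℝ)
    (Cq : V m → (Fin N → V m → ℂ) → Set (V m) → Prop) (f : Fin N → V m → ℂ) (U : Set (V m)) : Prop :=
  ∃ θ θ' : V m → V m, Aut θ θ' ∧ ∀ q : V m, ‖q‖ = 1 → (inner ℂ p q : ℂ) = 0 →
    ∀ a ∈ ball (0 : ℂ) 1, Cq q (fun j z => f j (θ (mv p a z)))
      {z | z ∈ ball (0 : V m) 1 ∧ ‖z - q‖ < ρ q ∧ θ (mv p a z) ∈ U}

/-- the data on the Whitney cells -/
noncomputable def cellDat (hmv : S_mv) {p : V m} (hp : ‖p‖ = 1) {N K : ℕ} {r : V m → ℝ → ℝ} {δ η : ℝ}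
    {Cq : (Fin N → V m → ℂ) → Set (V m) → Prop} {Cnd : (Fin N → V m → ℂ) → Set (V m) → Prop}
    (x : Dat p N K r δ η Cnd) (θ θ' : V m → V m) (hθ : Aut θ θ') {q : V m} (hq : ‖q‖ = 1)
    {ρ : ℝ} (hρ : 0 < ρ) {a : ℂ} (ha : a ∈ ball (0 : ℂ) 1)
    (hc : Cq (fun j z => x.f j (θ (mv p a z)))
      {z | z ∈ ball (0 : V m) 1 ∧ ‖z - q‖ < ρ ∧ θ (mv p a z) ∈ x.U}) :
    Dat p N (K + 1) (fun y ε => min (r y ε) (r0 y ε)) δ (min η (ρ ^ 2 / 4)) Cq where
  f := fun j z => x.f j (θ (mv p a z))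
  U := {z | z ∈ ball (0 : V m) 1 ∧ ‖z - q‖ < ρ ∧ θ (mv p a z) ∈ x.U}
  L := Fin.snoc (α := fun _ => V m → ℂ) (fun l z => x.L l (θ (mv p a z))) (Lo q)
  hf := fun j => (x.hf j).comp (hθ.comp (aut_mv hmv hp ha))
  hlow := fun z hz => x.hlow _ ((hθ.comp (aut_mv hmv hp ha)).m1 hz)
  hL := by
    have A := hθ.comp (aut_mv hmv hp ha)
    have h1 : Fams p (fun y ε => min (r y ε) (r0 y ε))
        (fun (l : Fin K) (_ : Fin 1) z => x.L l (θ (mv p a z))) :=
      Fams.mono (x.hL.comp hmv hp A) (fun y ε => min_le_left _ _)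
    refine ⟨fun s j => ?_, fun s => ?_⟩
    · refine Fin.lastCases ?_ (fun l => ?_) s
      · simp only [Fin.snoc_last]
        exact HB_Lo hq
      · simp only [Fin.snoc_castSucc]
        exact h1.hb l 0
    · refine Fin.lastCases ?_ (fun l => ?_) s
      · refine ⟨fun z => z, fun z => z, ⟨differentiableOn_id, differentiableOn_id,
          fun z hz => hz, fun z hz => hz, fun z _ => rfl, fun z _ => rfl⟩, fun _ => ?_⟩
        simp only [Fin.snoc_last]
        have h2 := scr_Lo hmv hp hq (LinearIsometryEquiv.refl ℂ (V m)) (c := 0)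
          (mem_ball_self one_pos)
        have h3 : SCr p r0 (fun z => Lo q z) := by
          refine h2.congr hmv hp (fun z _ => ?_)
          change Lo q z = Lo q (mv p 0 z)
          rw [mv_zero]
        exact SCr.mono h3 (fun y ε => min_le_right _ _)
      · simp only [Fin.snoc_castSucc]
        exact h1.sc l
  hout := by
    intro z hz hzU
    have A := hθ.comp (aut_mv hmv hp ha)
    rw [Fin.sum_univ_castSucc]
    simp only [Fin.snoc_castSucc, Fin.snoc_last]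
    by_cases h1 : ‖z - q‖ < ρ
    · have h2 : θ (mv p a z) ∉ x.U := fun h => hzU ⟨hz, h1, h⟩
      have h3 := x.hout _ (A.m1 hz) h2
      have h4 := norm_nonneg (Lo q z)
      have h5 := min_le_left η (ρ ^ 2 / 4)
      linarith
    · push Not at h1
      have h3 := Lo_ge hq hz hρ.le h1
      have h4 : 0 ≤ ∑ l : Fin K, ‖x.L l (θ (mv p a z))‖ :=
        Finset.sum_nonneg fun l _ => norm_nonneg _
      have h5 := min_le_right η (ρ ^ 2 / 4)
      linarith
  hc := hc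

/-- **The step at a complex geodesic.** -/
theorem node_step (hmv : S_mv) (hball : S_ball) {p : V m} (hp : ‖p‖ = 1) {N : ℕ} {δ : ℝ}
    (hδ : 0 < δ) (ρ : V m → ℝ) (hρ : ∀ q, 0 < ρ q)
    (Cq : V m → (Fin N → V m → ℂ) → Set (V m) → Prop) (h : ∀ q, Goal p N δ (Cq q)) :
    Goal p N δ (NodeCnd p ρ Cq) := by
  classical
  intro K r hr η hη
  by_contra hns
  choose θ θ' hθ hc using fun x : Dat p N K r δ η (NodeCnd p ρ Cq) => x.hc
  -- transport
  have h1 : ¬ Solv (fun (x : Dat p N K r δ η (NodeCnd p ρ Cq)) (o : Fin N ⊕ Fin K) (z : V m) =>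
      x.F o (θ x z)) := fun hh => hns (Solv.comp (fun x => (hθ x).symm) hh)
  have hF1 : ∀ (x : Dat p N K r δ η (NodeCnd p ρ Cq)) (o : Fin N ⊕ Fin K),
      HB (fun z => x.F o (θ x z)) := fun x o => (x.hF o).comp (hθ x)
  have h2 := slice hmv hball hp hF1 h1
  let tJ : TopologicalSpace (Dat p N K r δ η (NodeCnd p ρ Cq) × ball (0 : ℂ) 1) := ⊥
  have dJ : DiscreteTopology (Dat p N K r δ η (NodeCnd p ρ Cq) × ball (0 : ℂ) 1) := ⟨rfl⟩
  have hmvx : ∀ x : Dat p N K r δ η (NodeCnd p ρ Cq) × ball (0 : ℂ) 1,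
      Aut (mv p x.2) (mv p (-(x.2 : ℂ))) := fun x => aut_mv hmv hp x.2.2
  have hF2 : ∀ (x : Dat p N K r δ η (NodeCnd p ρ Cq) × ball (0 : ℂ) 1)
      (o : (Fin N ⊕ Fin K) ⊕ Unit),
      HB (fun z => o.elim (fun j => x.1.F j (θ x.1 (mv p x.2 z))) (fun _ => inner ℂ p z)) := by
    intro x o
    rcases o with o | o
    · exact (hF1 x.1 o).comp (hmvx x)
    · exact HB_inner hp
  obtain ⟨χ, hχ⟩ := exists_zero hF2 h2
  obtain ⟨q, hq⟩ : ∃ q, q = pt χ := ⟨_, rfl⟩
  have hA2 : ∀ (x : Dat p N K r δ η (NodeCnd p ρ Cq) × ball (0 : ℂ) 1) (o : Fin N ⊕ Fin K),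
      HB (fun z => x.1.F o (θ x.1 (mv p x.2 z))) := fun x o => hF2 x (Sum.inl o)
  have hχA : ∀ o : Fin N ⊕ Fin K,
      χ (El (f := fun x z => x.1.F o (θ x.1 (mv p x.2 z))) (fun x => hA2 x o)) = 0 :=
    fun o => hχ (Sum.inl o)
  have hpq : (inner ℂ p q : ℂ) = 0 := by
    have h3 := char_Lw χ p
    have h4 : (Lw p : HI (Dat p N K r δ η (NodeCnd p ρ Cq) × ball (0 : ℂ) 1) m) =
        El (f := fun _ z => (inner ℂ p z : ℂ)) (fun x => HB_inner hp) := ext' fun x => rfl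
    have h5 : χ (El (I := Dat p N K r δ η (NodeCnd p ρ Cq) × ball (0 : ℂ) 1)
      (f := fun _ z => (inner ℂ p z : ℂ)) (fun x => HB_inner hp)) = 0 := hχ (Sum.inr ())
    rw [h4, h5] at h3
    rw [hq]
    exact h3.symm
  have hlow2 : ∀ (x : Dat p N K r δ η (NodeCnd p ρ Cq) × ball (0 : ℂ) 1),
      ∀ z ∈ ball (0 : V m) 1, δ ≤ ∑ j, ‖x.1.f j (θ x.1 (mv p x.2 z))‖ :=
    fun x z hz => x.1.hlow _ ((hθ x.1).m1 ((hmvx x).m1 hz))
  have hq1 : ‖q‖ = 1 := by
    rcases lt_or_eq_of_le (pt_norm χ) with h3 | h3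
    · exfalso
      have hpt : pt χ ∈ ball (0 : V m) 1 := by rw [mem_ball_zero_iff]; exact h3
      refine char_index (ι := Fin N) χ (fun j x => x.1.f j (θ x.1 (mv p x.2 (pt χ)))) (C := 1)
        (fun j x => (hA2 x (Sum.inl j)).2 _ hpt) hδ (fun x => hlow2 x _ hpt) ?_
      intro j
      have h4 := char_interior χ h3 (El (f := fun x z => x.1.F (Sum.inl j)
        (θ x.1 (mv p x.2 z))) (fun x => hA2 x (Sum.inl j)))
      rw [hχA (Sum.inl j)] at h4
      refine Eq.trans (congrArg χ ?_) h4.symm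
      exact ext' fun x => rfl
    · rw [hq]; exact h3
  -- the induction hypothesis
  obtain ⟨C, hC⟩ := h q (K + 1) (fun y ε => min (r y ε) (r0 y ε))
    (fun y ε hε => lt_min (hr y ε hε) (r0_pos y hε)) (min η (ρ q ^ 2 / 4))
    (lt_min hη (by have := hρ q; positivity))
  let D : ∀ x : Dat p N K r δ η (NodeCnd p ρ Cq) × ball (0 : ℂ) 1,
      Dat p N (K + 1) (fun y ε => min (r y ε) (r0 y ε)) δ (min η (ρ q ^ 2 / 4)) (Cq q) :=
    fun x => cellDat hmv hp x.1 (θ x.1) (θ' x.1) (hθ x.1) hq1 (hρ q) x.2.2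
      (hc x.1 q hq1 hpq x.2 x.2.2)
  have h3 : ∀ o, χ (El (f := fun x => (D x).F o) (fun x => (D x).hF o)) = 0 := by
    intro o
    rcases o with j | l
    · exact hχA (Sum.inl j)
    · refine Fin.lastCases ?_ (fun l => ?_) l
      · have h4 : El (f := fun x => (D x).F (Sum.inr (Fin.last K)))
            (fun x => (D x).hF (Sum.inr (Fin.last K))) =
            (Cc (1/2) * (1 - Lw q) :
              HI (Dat p N K r δ η (NodeCnd p ρ Cq) × ball (0 : ℂ) 1) m) := by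
          apply ext'
          rintro ⟨x, z⟩
          change (Fin.snoc (α := fun _ => V m → ℂ) (fun l z => x.1.L l (θ x.1 (mv p x.2 z)))
            (Lo q) : Fin (K + 1) → V m → ℂ) (Fin.last K) z = (1/2 : ℂ) * (1 - inner ℂ q (z : V m))
          rw [Fin.snoc_last]
          change (1 - inner ℂ q (z : V m)) / 2 = (1/2 : ℂ) * (1 - inner ℂ q (z : V m))
          ring
        rw [h4, map_mul, char_Cc, map_sub, map_one, char_Lw, ← hq, inner_self_eq_norm_sq_to_K, hq1]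
        norm_num
      · refine Eq.trans (congrArg χ ?_) (hχA (Sum.inr l))
        apply ext'
        rintro ⟨x, z⟩
        change (Fin.snoc (α := fun _ => V m → ℂ) (fun l z => x.1.L l (θ x.1 (mv p x.2 z)))
            (Lo q) : Fin (K + 1) → V m → ℂ) l.castSucc z = x.1.L l (θ x.1 (mv p x.2 z))
        rw [Fin.snoc_castSucc]
  exact not_solv (F := fun x => (D x).F) (fun x o => (D x).hF o) χ univ
    (by rw [Id_univ, map_one]) h3 ⟨C, fun l => hC (D l.1)⟩

/-- the condition `Cq q` near all points `q` of the sphere -/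
def NearCnd {N : ℕ} (ρ : V m → ℝ) (Cq : V m → (Fin N → V m → ℂ) → Set (V m) → Prop)
    (f : Fin N → V m → ℂ) (U : Set (V m)) : Prop :=
  ∀ q : V m, ‖q‖ = 1 → Cq q f {z | z ∈ U ∧ ‖z - q‖ < ρ q}

/-- the data near a boundary point -/
noncomputable def nearDat (hmv : S_mv) {p : V m} (hp : ‖p‖ = 1) {N K : ℕ} {r : V m → ℝ → ℝ} {δ η : ℝ}
    {Cq : (Fin N → V m → ℂ) → Set (V m) → Prop} {Cnd : (Fin N → V m → ℂ) → Set (V m) → Prop}
    (x : Dat p N K r δ η Cnd) {q : V m} (hq : ‖q‖ = 1) {ρ : ℝ} (hρ : 0 < ρ)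
    (hc : Cq x.f {z | z ∈ x.U ∧ ‖z - q‖ < ρ}) :
    Dat p N (K + 1) (fun y ε => min (r y ε) (r0 y ε)) δ (min η (ρ ^ 2 / 4)) Cq where
  f := x.f
  U := {z | z ∈ x.U ∧ ‖z - q‖ < ρ}
  L := Fin.snoc (α := fun _ => V m → ℂ) x.L (Lo q)
  hf := x.hf
  hlow := x.hlow
  hL := by
    have h1 : Fams p (fun y ε => min (r y ε) (r0 y ε))
        (fun (l : Fin K) (_ : Fin 1) => x.L l) :=
      Fams.mono x.hL (fun y ε => min_le_left _ _)
    refine ⟨fun s j => ?_, fun s => ?_⟩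
    · refine Fin.lastCases ?_ (fun l => ?_) s
      · simp only [Fin.snoc_last]
        exact HB_Lo hq
      · simp only [Fin.snoc_castSucc]
        exact h1.hb l 0
    · refine Fin.lastCases ?_ (fun l => ?_) s
      · refine ⟨fun z => z, fun z => z, ⟨differentiableOn_id, differentiableOn_id,
          fun z hz => hz, fun z hz => hz, fun z _ => rfl, fun z _ => rfl⟩, fun _ => ?_⟩
        simp only [Fin.snoc_last]
        have h2 := scr_Lo hmv hp hq (LinearIsometryEquiv.refl ℂ (V m)) (c := 0)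
          (mem_ball_self one_pos)
        have h3 : SCr p r0 (fun z => Lo q z) := by
          refine h2.congr hmv hp (fun z _ => ?_)
          change Lo q z = Lo q (mv p 0 z)
          rw [mv_zero]
        exact SCr.mono h3 (fun y ε => min_le_right _ _)
      · simp only [Fin.snoc_castSucc]
        exact h1.sc l
  hout := by
    intro z hz hzU
    rw [Fin.sum_univ_castSucc]
    simp only [Fin.snoc_castSucc, Fin.snoc_last]
    by_cases h1 : ‖z - q‖ < ρ
    · have h2 : z ∉ x.U := fun h => hzU ⟨h, h1⟩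
      have h3 := x.hout z hz h2
      have h4 := norm_nonneg (Lo q z)
      have h5 := min_le_left η (ρ ^ 2 / 4)
      linarith
    · push Not at h1
      have h3 := Lo_ge hq hz hρ.le h1
      have h4 : 0 ≤ ∑ l : Fin K, ‖x.L l z‖ := Finset.sum_nonneg fun l _ => norm_nonneg _
      have h5 := min_le_right η (ρ ^ 2 / 4)
      linarith
  hc := hc

/-- **The step at the boundary points.** -/
theorem near_step (hmv : S_mv) {p : V m} (hp : ‖p‖ = 1) {N : ℕ} {δ : ℝ}
    (hδ : 0 < δ) (ρ : V m → ℝ) (hρ : ∀ q, 0 < ρ q)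
    (Cq : V m → (Fin N → V m → ℂ) → Set (V m) → Prop) (h : ∀ q, Goal p N δ (Cq q)) :
    Goal p N δ (NearCnd ρ Cq) := by
  classical
  intro K r hr η hη
  by_contra hns
  let tJ : TopologicalSpace (Dat p N K r δ η (NearCnd ρ Cq)) := ⊥
  have dJ : DiscreteTopology (Dat p N K r δ η (NearCnd ρ Cq)) := ⟨rfl⟩
  obtain ⟨χ, hχ⟩ := exists_zero (F := fun x : Dat p N K r δ η (NearCnd ρ Cq) => x.F)
    (fun x o => x.hF o) hns
  obtain ⟨q, hq⟩ : ∃ q, q = pt χ := ⟨_, rfl⟩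
  have hq1 : ‖q‖ = 1 := by
    rcases lt_or_eq_of_le (pt_norm χ) with h3 | h3
    · exfalso
      have hpt : pt χ ∈ ball (0 : V m) 1 := by rw [mem_ball_zero_iff]; exact h3
      refine char_index (ι := Fin N) χ
        (fun j (x : Dat p N K r δ η (NearCnd ρ Cq)) => x.f j (pt χ)) (C := 1)
        (fun j x => (x.hf j).2 _ hpt) hδ (fun x => x.hlow _ hpt) ?_
      intro j
      have h4 := char_interior χ h3 (El (f := fun x : Dat p N K r δ η (NearCnd ρ Cq) =>
        x.F (Sum.inl j)) (fun x => x.hF (Sum.inl j)))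
      rw [hχ (Sum.inl j)] at h4
      refine Eq.trans (congrArg χ ?_) h4.symm
      exact ext' fun x => rfl
    · rw [hq]; exact h3
  obtain ⟨C, hC⟩ := h q (K + 1) (fun y ε => min (r y ε) (r0 y ε))
    (fun y ε hε => lt_min (hr y ε hε) (r0_pos y hε)) (min η (ρ q ^ 2 / 4))
    (lt_min hη (by have := hρ q; positivity))
  let D : ∀ x : Dat p N K r δ η (NearCnd ρ Cq),
      Dat p N (K + 1) (fun y ε => min (r y ε) (r0 y ε)) δ (min η (ρ q ^ 2 / 4)) (Cq q) :=
    fun x => nearDat hmv hp x hq1 (hρ q) (x.hc q hq1)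
  have h3 : ∀ o, χ (El (f := fun x => (D x).F o) (fun x => (D x).hF o)) = 0 := by
    intro o
    rcases o with j | l
    · exact hχ (Sum.inl j)
    · refine Fin.lastCases ?_ (fun l => ?_) l
      · have h4 : El (f := fun x => (D x).F (Sum.inr (Fin.last K)))
            (fun x => (D x).hF (Sum.inr (Fin.last K))) =
            (Cc (1/2) * (1 - Lw q) : HI (Dat p N K r δ η (NearCnd ρ Cq)) m) := by
          apply ext'
          rintro ⟨x, z⟩
          change (Fin.snoc (α := fun _ => V m → ℂ) x.L (Lo q) : Fin (K + 1) → V m → ℂ)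
            (Fin.last K) z = (1/2 : ℂ) * (1 - inner ℂ q (z : V m))
          rw [Fin.snoc_last]
          change (1 - inner ℂ q (z : V m)) / 2 = (1/2 : ℂ) * (1 - inner ℂ q (z : V m))
          ring
        rw [h4, map_mul, char_Cc, map_sub, map_one, char_Lw, ← hq, inner_self_eq_norm_sq_to_K, hq1]
        norm_num
      · refine Eq.trans (congrArg χ ?_) (hχ (Sum.inr l))
        apply ext'
        rintro ⟨x, z⟩
        change (Fin.snoc (α := fun _ => V m → ℂ) x.L (Lo q) : Fin (K + 1) → V m → ℂ)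
          l.castSucc z = x.L l z
        rw [Fin.snoc_castSucc]
  exact not_solv (F := fun x => (D x).F) (fun x o => (D x).hF o) χ univ
    (by rw [Id_univ, map_one]) h3 ⟨C, fun l => hC (D l.1)⟩

end Pool.Agent.TH223.Tr
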