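import Mathlib
import Pool.Agent.TH223.Tr.Node

/-!
Iterated Whitney localisation of the corona problem on the ball: the final cells.
-/

set_option autoImplicit false

open Metric Set Filter Topology WeakDual

namespace Pool.Agent.TH223.Tr

open Pool.Agent.TH310.Cor
open Pool.Agent.H326R3.CB (Bt)
open Pool.Agent.W732.Cor (mv S_mv S_ball S_uni)

variable {m : ℕ}

/-- On `U` one function `f i` and the functions `f j`, `j ∈ S`, are enough, and the functions `f j`,
`j ∈ S`, are controlled on `U` by functions `u` which are scaled continuous along geodesics. -/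
def LeafCnd {N k : ℕ} (p : V m) (r : V m → ℝ → ℝ) (δ ω : ℝ) (f : Fin N → V m → ℂ)
    (U : Set (V m)) : Prop :=
  ∃ (i : Fin N) (S : Finset (Fin N)) (u : Fin k → V m → ℂ),
    Fams p r (fun l (_ : Fin 1) => u l) ∧ (∀ z ∈ U, δ ≤ ‖f i z‖ + ∑ j ∈ S, ‖f j z‖) ∧
    ∀ j ∈ S, ∀ z ∈ U, ∀ w ∈ U, (∀ l, ‖u l z - u l w‖ ≤ ω) → ‖f j z - f j w‖ ≤ δ / (4 * N)

theorem HB.sub_const {u : V m → ℂ} (hu : HB u) {c : ℂ} (hc : ‖c‖ ≤ 1) :
    HB (fun z => (u z - c) / 2) := by
  refine ⟨?_, fun z hz => ?_⟩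
  · have h1 := (hu.1.sub_const c).mul_const ((2 : ℂ)⁻¹)
    simp only [← div_eq_mul_inv] at h1
    exact h1
  · have h1 := norm_sub_le (u z) c
    have h2 := hu.2 z hz
    rw [norm_div]
    have h3 : ‖(2 : ℂ)‖ = 2 := by norm_num
    rw [h3, div_le_one (by norm_num)]
    linarith

theorem SCr.sub_const {p : V m} {r : V m → ℝ → ℝ} {u : V m → ℂ} (hu : SCr p r u) (c : ℂ) :
    SCr p r (fun z => (u z - c) / 2) := by
  intro q hq hpq ε hε a ha z hz w hw hzq hwq
  have h1 := hu q hq hpq ε hε a ha z hz w hw hzq hwq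
  have h2 : (u (mv p a z) - c) / 2 - (u (mv p a w) - c) / 2 =
      (u (mv p a z) - u (mv p a w)) / 2 := by ring
  change ‖(u (mv p a z) - c) / 2 - (u (mv p a w) - c) / 2‖ ≤ ε
  rw [h2, norm_div]
  have h3 : ‖(2 : ℂ)‖ = 2 := by norm_num
  rw [h3]
  have h4 := norm_nonneg (u (mv p a z) - u (mv p a w))
  linarith

/-- two families together -/
theorem Fams.append {p : V m} {r1 r2 : V m → ℝ → ℝ} {k K : ℕ} {u : Fin k → V m → ℂ}
    {L : Fin K → V m → ℂ} {c : Fin k → ℂ} (hc : ∀ l, ‖c l‖ ≤ 1)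
    (hu : Fams p r1 (fun l (_ : Fin 1) => u l)) (hL : Fams p r2 (fun l (_ : Fin 1) => L l)) :
    Fams p (fun y ε => min (r1 y ε) (r2 y ε)) (fun s (_ : Fin 1) =>
      Fin.addCases (motive := fun _ => V m → ℂ) (fun l z => (u l z - c l) / 2) L s) := by
  refine ⟨fun s _ => ?_, fun s => ?_⟩
  · refine Fin.addCases (fun l => ?_) (fun l => ?_) s
    · simp only [Fin.addCases_left]
      exact HB.sub_const (hu.hb l 0) (hc l)
    · simp only [Fin.addCases_right]
      exact hL.hb l 0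
  · refine Fin.addCases (fun l => ?_) (fun l => ?_) s
    · obtain ⟨ψ, φ, hψ, hs⟩ := hu.sc l
      refine ⟨ψ, φ, hψ, fun _ => ?_⟩
      simp only [Fin.addCases_left]
      exact SCr.mono (SCr.sub_const (hs 0) (c l)) (fun y ε => min_le_left _ _)
    · obtain ⟨ψ, φ, hψ, hs⟩ := hL.sc l
      refine ⟨ψ, φ, hψ, fun _ => ?_⟩
      simp only [Fin.addCases_right]
      exact SCr.mono (hs 0) (fun y ε => min_le_right _ _)

/-- **The final cells.** -/
theorem leaf_step (hmv : S_mv) (hball : S_ball) (huni : S_uni) {p : V m} (hp : ‖p‖ = 1) {N : ℕ}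
    {δ : ℝ} (hδ : 0 < δ) (k : ℕ) (r1 : V m → ℝ → ℝ) (hr1 : ∀ q ε, 0 < ε → 0 < r1 q ε) {ω : ℝ}
    (hω : 0 < ω) : Goal p N δ (LeafCnd (k := k) p r1 δ ω) := by
  classical
  intro K r hr η hη
  rcases Nat.eq_zero_or_pos N with hN | hN
  · subst hN
    exact ⟨0, fun x => by obtain ⟨i, _⟩ := x.hc; exact i.elim0⟩
  have hNr : (0 : ℝ) < N := by exact_mod_cast hN
  obtain ⟨ε, hε⟩ : ∃ ε : ℝ, ε = δ / (4 * N) := ⟨_, rfl⟩
  have hε0 : 0 < ε := by rw [hε]; positivity
  have hNε : (N : ℝ) * (2 * ε) = δ / 2 := by rw [hε]; field_simp; ring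
  by_contra hns
  choose i S u hu hlo hosc using fun x : Dat p N K r δ η (LeafCnd (k := k) p r1 δ ω) => x.hc
  let tJ : TopologicalSpace (Dat p N K r δ η (LeafCnd (k := k) p r1 δ ω)) := ⊥
  have dJ : DiscreteTopology (Dat p N K r δ η (LeafCnd (k := k) p r1 δ ω)) := ⟨rfl⟩
  obtain ⟨χ, hχ⟩ := exists_zero
    (F := fun x : Dat p N K r δ η (LeafCnd (k := k) p r1 δ ω) => x.F) (fun x o => x.hF o) hns
  have hu1 : ∀ (l : Fin k) (x : Dat p N K r δ η (LeafCnd (k := k) p r1 δ ω)), HB (u x l) :=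
    fun l x => (hu x).hb l 0
  obtain ⟨c, hcdef⟩ : ∃ c : Fin k → ℂ, c = fun l => χ (El (f := fun x => u x l) (hu1 l)) :=
    ⟨_, rfl⟩
  have hc1 : ∀ l, ‖c l‖ ≤ 1 := by
    intro l
    rw [hcdef]
    exact (char_le χ _).trans (norm_le zero_le_one (fun x => (hu1 l x.1).2 _ x.2.2))
  -- the extended family
  obtain ⟨F2, hF2def⟩ : ∃ F2 : Dat p N K r δ η (LeafCnd (k := k) p r1 δ ω) →
      (Fin N ⊕ (Fin k ⊕ Fin K)) → V m → ℂ,
      F2 = fun x => Sum.elim x.f (Sum.elim (fun l z => (u x l z - c l) / 2) x.L) := ⟨_, rfl⟩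
  have hF2 : ∀ x o, HB (F2 x o) := by
    intro x o
    rw [hF2def]
    rcases o with j | l | l
    · exact x.hf j
    · exact HB.sub_const (hu1 l x) (hc1 l)
    · exact x.hL.hb l 0
  have hχ2 : ∀ o, χ (El (f := fun x => F2 x o) (fun x => hF2 x o)) = 0 := by
    intro o
    rcases o with j | l | l
    · refine Eq.trans (congrArg χ ?_) (hχ (Sum.inl j))
      apply ext'
      rintro ⟨x, z⟩
      change F2 x (Sum.inl j) z = x.f j z
      rw [hF2def]
      rfl
    · have h4 : El (f := fun x => F2 x (Sum.inr (Sum.inl l)))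
          (fun x => hF2 x (Sum.inr (Sum.inl l))) =
          (Cc (1/2) * (El (f := fun x => u x l) (hu1 l) - Cc (c l)) :
            HI (Dat p N K r δ η (LeafCnd (k := k) p r1 δ ω)) m) := by
        apply ext'
        rintro ⟨x, z⟩
        change F2 x (Sum.inr (Sum.inl l)) z = (1/2 : ℂ) * (u x l z - c l)
        rw [hF2def]
        change (u x l z - c l) / 2 = (1/2 : ℂ) * (u x l z - c l)
        ring
      rw [h4, map_mul, map_sub, char_Cc, char_Cc, hcdef, sub_self, mul_zero]
    · refine Eq.trans (congrArg χ ?_) (hχ (Sum.inr l))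
      apply ext'
      rintro ⟨x, z⟩
      change F2 x (Sum.inr (Sum.inr l)) z = x.L l z
      rw [hF2def]
      rfl
  obtain ⟨δ', hδ'⟩ : ∃ δ' : ℝ, δ' = min (min η (ω / 4)) ε := ⟨_, rfl⟩
  have hδ'0 : 0 < δ' := by rw [hδ']; positivity
  obtain ⟨C, hC⟩ := main hmv hball huni hp (fun y ε => min (r1 y ε) (r y ε))
    (fun y ε hε => lt_min (hr1 y ε hε) (hr y ε hε)) 1 (k + K) hδ'0
  -- one function `f j` that is large where the `u - c` are small
  have key : ∀ (x : Dat p N K r δ η (LeafCnd (k := k) p r1 δ ω)) (j₀ : Fin N),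
      (∀ z ∈ ball (0 : V m) 1, z ∈ x.U → (∀ l, ‖u x l z - c l‖ ≤ ω / 2) → ε ≤ ‖x.f j₀ z‖) →
      ∃ g : (Fin N ⊕ (Fin k ⊕ Fin K)) → V m → ℂ, (∀ o, DifferentiableOn ℂ (g o) (ball 0 1)) ∧
        (∀ o, ∀ z ∈ ball (0 : V m) 1, ‖g o z‖ ≤ max C 0) ∧
        ∀ z ∈ ball (0 : V m) 1, ∑ o, F2 x o z * g o z = 1 := by
    intro x j₀ hj₀
    obtain ⟨g, g0, hg, hg0, hgb, hg0b, hid⟩ := hC (fun s (_ : Fin 1) =>
      Fin.addCases (motive := fun _ => V m → ℂ) (fun l z => (u x l z - c l) / 2) x.L s) (x.f j₀)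
      (Fams.append hc1 (hu x) x.hL) (x.hf j₀) (by
        intro z hz
        rw [Fin.sum_univ_add]
        simp only [Fin.addCases_left, Fin.addCases_right, Finset.univ_unique,
          Finset.sum_const, Finset.card_singleton, one_smul]
        have h1 : 0 ≤ ∑ l : Fin k, ‖(u x l z - c l) / 2‖ :=
          Finset.sum_nonneg fun l _ => norm_nonneg _
        have h2 : 0 ≤ ∑ l : Fin K, ‖x.L l z‖ := Finset.sum_nonneg fun l _ => norm_nonneg _
        have h3 := norm_nonneg (x.f j₀ z)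
        by_cases hzU : z ∈ x.U
        · by_cases hall : ∀ l, ‖u x l z - c l‖ ≤ ω / 2
          · have h4 := hj₀ z hz hzU hall
            have h5 : δ' ≤ ε := by rw [hδ']; exact min_le_right _ _
            linarith
          · push Not at hall
            obtain ⟨l, hl⟩ := hall
            have h4 : ‖(u x l z - c l) / 2‖ ≤ ∑ l : Fin k, ‖(u x l z - c l) / 2‖ :=
              Finset.single_le_sum (f := fun l : Fin k => ‖(u x l z - c l) / 2‖)
                (fun l _ => norm_nonneg _) (Finset.mem_univ l)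
            have h6 : ‖(u x l z - c l) / 2‖ = ‖u x l z - c l‖ / 2 := by
              rw [norm_div]
              norm_num
            have h5 : δ' ≤ ω / 4 := by
              rw [hδ']; exact (min_le_left _ _).trans (min_le_right _ _)
            linarith
        · have h4 := x.hout z hz hzU
          have h5 : δ' ≤ η := by
            rw [hδ']; exact (min_le_left _ _).trans (min_le_left _ _)
          linarith)
    refine ⟨Sum.elim (fun j => if j = j₀ then g0 else fun _ => 0)
      (Sum.elim (fun l => g (Fin.castAdd K l) 0) (fun l => g (Fin.natAdd k l) 0)), ?_, ?_, ?_⟩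
    · intro o
      rcases o with j | l | l
      · simp only [Sum.elim_inl]
        by_cases hj : j = j₀
        · rw [if_pos hj]; exact hg0
        · rw [if_neg hj]; exact differentiableOn_const _
      · exact hg _ _
      · exact hg _ _
    · intro o z hz
      rcases o with j | l | l
      · simp only [Sum.elim_inl]
        by_cases hj : j = j₀
        · rw [if_pos hj]; exact (hg0b z hz).trans (le_max_left _ _)
        · rw [if_neg hj, norm_zero]; exact le_max_right _ _
      · exact (hgb _ _ z hz).trans (le_max_left _ _)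
      · exact (hgb _ _ z hz).trans (le_max_left _ _)
    · intro z hz
      have h1 := hid z hz
      rw [Fin.sum_univ_add] at h1
      simp only [Fin.addCases_left, Fin.addCases_right, Finset.univ_unique,
        Finset.sum_singleton, Fin.default_eq_zero] at h1
      rw [Fintype.sum_sum_type, Fintype.sum_sum_type, hF2def]
      simp only [Sum.elim_inl, Sum.elim_inr]
      rw [Finset.sum_eq_single j₀ (fun j _ hj => by rw [if_neg hj, mul_zero])
        (fun h => absurd (Finset.mem_univ _) h), if_pos rfl, ← h1]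
      ring
  -- the index set where `f j` is not small
  obtain ⟨E, hE⟩ : ∃ E : Fin N → Set (Dat p N K r δ η (LeafCnd (k := k) p r1 δ ω)),
      E = fun j => {x | j ∈ S x ∧ ∃ z ∈ x.U, (∀ l, ‖u x l z - c l‖ ≤ ω / 2) ∧
        2 * ε < ‖x.f j z‖} := ⟨_, rfl⟩
  have hbad : ∀ j, χ (Id m (E j)ᶜ) = 1 := by
    intro j
    rcases char_Id χ (E j) with h | h
    · exfalso
      refine not_solv hF2 χ (E j) h hχ2 ⟨max C 0, fun x => ?_⟩
      obtain ⟨x, hx⟩ := x
      rw [hE] at hx
      obtain ⟨hjS, z0, hz0U, hz0, hz0f⟩ := hx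
      refine key x j (fun z _ hzU hzc => ?_)
      have h1 := hosc x j hjS z hzU z0 hz0U (fun l => by
        have h2 : u x l z - u x l z0 = (u x l z - c l) - (u x l z0 - c l) := by ring
        rw [h2]
        refine (norm_sub_le _ _).trans ?_
        linarith [hzc l, hz0 l])
      rw [← hε] at h1
      have h2 := norm_sub_norm_le (x.f j z0) (x.f j z)
      rw [norm_sub_rev] at h2
      linarith
    · exact h
  have hgood := char_inter χ (fun j => (E j)ᶜ) hbad
  refine not_solv hF2 χ _ hgood hχ2 ⟨max C 0, fun x => ?_⟩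
  obtain ⟨x, hx⟩ := x
  refine key x (i x) (fun z _ hzU hzc => ?_)
  have h1 := hlo x z hzU
  have h2 : ∀ j ∈ S x, ‖x.f j z‖ ≤ 2 * ε := by
    intro j hj
    by_contra hcon
    push Not at hcon
    have h3 : x ∈ (E j)ᶜ := hx j
    apply h3
    rw [hE]
    exact ⟨hj, z, hzU, hzc, hcon⟩
  have h3 := Finset.sum_le_sum h2
  rw [Finset.sum_const, nsmul_eq_mul] at h3
  have h4 : ((S x).card : ℝ) ≤ N := by
    have h5 := Finset.card_le_univ (S x)
    rw [Fintype.card_fin] at h5
    exact_mod_cast h5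
  have h5 : ((S x).card : ℝ) * (2 * ε) ≤ N * (2 * ε) := by gcongr
  have h6 : ε ≤ δ / 2 := by
    rw [← hNε]
    have : (1 : ℝ) ≤ N := by exact_mod_cast hN
    nlinarith
  linarith

end Pool.Agent.TH223.Tr
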